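import Pool.Agent.Helper35.PQF.St

set_option autoImplicit false

/-!
# Project PQF (MP_d112a4_gt): module AV1
-/

open Filter Topology Set

namespace Pool.Agent.Helper42.PM

open Pool.Agent.Helper35.PM

theorem av1 : St_AV1 := by
  classical
  intro Γ _ ρ hρ
  obtain ⟨hfin, -, -, hN, -, -, -⟩ := hρ
  have hnum : ∀ T, (num ρ T : ℝ) = ((hfin T).toFinset.card : ℝ) := by
    intro T
    rw [num, Set.ncard_eq_toFinset_card _ (hfin T)]
  have havg : ∀ T, avg ρ ρ T =
      (∑ c ∈ (hfin T).toFinset, len ρ c / len ρ c) / ((hfin T).toFinset.card : ℝ) := by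
    intro T
    rw [avg, hnum, finsum_mem_eq_finite_toFinset_sum _ (hfin T)]
  have hle : ∀ T, avg ρ ρ T ≤ 1 := by
    intro T
    rw [havg]
    have h1 : ∑ c ∈ (hfin T).toFinset, len ρ c / len ρ c ≤ ((hfin T).toFinset.card : ℝ) := by
      calc ∑ c ∈ (hfin T).toFinset, len ρ c / len ρ c ≤ ∑ c ∈ (hfin T).toFinset, (1 : ℝ) :=
            Finset.sum_le_sum fun c _ => div_self_le_one _
        _ = _ := by rw [Finset.sum_const, nsmul_eq_mul, mul_one]
    exact (div_le_div_of_nonneg_right h1 (Nat.cast_nonneg _)).trans (div_self_le_one _)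
  refine ⟨?_, hle⟩
  have hlow : ∀ᶠ T in atTop, 1 - (num ρ 0 : ℝ) / (num ρ T : ℝ) ≤ avg ρ ρ T := by
    filter_upwards [hN.eventually_gt_atTop 0] with T hT
    rw [havg, ← hnum]
    have h1 : (num ρ T : ℝ) - num ρ 0 ≤ ∑ c ∈ (hfin T).toFinset, len ρ c / len ρ c := by
      have h2 : ((hfin T).toFinset.card : ℝ) =
          (((hfin T).toFinset.filter fun c => len ρ c = 0).card : ℝ) +
          (((hfin T).toFinset.filter fun c => ¬ len ρ c = 0).card : ℝ) := by
        exact_mod_cast (Finset.card_filter_add_card_filter_not _).symm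
      have h3 : (((hfin T).toFinset.filter fun c => len ρ c = 0).card : ℝ) ≤ num ρ 0 := by
        have h4 : ((hfin T).toFinset.filter fun c => len ρ c = 0).card ≤ num ρ 0 := by
          rw [num, ← Set.ncard_coe_finset]
          apply Set.ncard_le_ncard _ (hfin 0)
          intro c hc
          rw [Finset.mem_coe, Finset.mem_filter] at hc
          exact hc.2.le
        exact_mod_cast h4
      have h5 : (((hfin T).toFinset.filter fun c => ¬ len ρ c = 0).card : ℝ) =
          ∑ c ∈ (hfin T).toFinset, len ρ c / len ρ c := by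
        rw [Finset.card_filter]
        push_cast
        refine Finset.sum_congr rfl fun c _ => ?_
        by_cases hc : len ρ c = 0
        · simp [hc]
        · rw [if_pos hc, div_self hc]
      rw [hnum T, h2, ← h5]
      linarith
    rw [le_div_iff₀ hT, sub_mul, one_mul, div_mul_cancel₀ _ hT.ne']
    exact h1
  have hlim : Tendsto (fun T => 1 - (num ρ 0 : ℝ) / (num ρ T : ℝ)) atTop (𝓝 1) := by
    have h1 : Tendsto (fun T => (num ρ 0 : ℝ) / (num ρ T : ℝ)) atTop (𝓝 0) :=
      tendsto_const_nhds.div_atTop hN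
    simpa using h1.const_sub 1
  exact tendsto_of_tendsto_of_tendsto_of_le_of_le' hlim tendsto_const_nhds hlow
    (Eventually.of_forall hle)

end Pool.Agent.Helper42.PM
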