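import Pool.Agent.Helper35.PQF.St

set_option autoImplicit false

/-!
# Project PQF (MP_d112a4_gt): module JG
-/

open Filter Topology Set

namespace Pool.Agent.Helper42.PM

open Pool.Agent.Helper35.PM

section

variable {Γ : Type} [Group Γ] (ρ σ : Γ →* SL)

lemma jg_len_nonneg (hs2 : St_HS2) (c : ConjClasses Γ) : 0 ≤ len ρ c :=
  (hs2.2.2.1 _).1

lemma jg_ratio_nonneg (hs2 : St_HS2) (c : ConjClasses Γ) : 0 ≤ len σ c / len ρ c :=
  div_nonneg (jg_len_nonneg σ hs2 c) (jg_len_nonneg ρ hs2 c)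

lemma jg_avg_nonneg (hs2 : St_HS2) (T : ℝ) : 0 ≤ avg ρ σ T := by
  apply div_nonneg _ (Nat.cast_nonneg _)
  exact finsum_nonneg fun c => finsum_nonneg fun _ => jg_ratio_nonneg ρ σ hs2 c

/-- The counting step. -/
lemma jg_count (hs2 : St_HS2) (hρ : Facts ρ) (hσ : Facts σ) (K K' T : ℝ) (hT : 0 < T)
    (hK : 0 < K) (havg : avg ρ σ T ≤ K') :
    (1 - K' / K) * (num ρ T : ℝ) ≤ (num σ (K * T) : ℝ) := by
  classical
  obtain ⟨hfin, -, -, -, -, hρ0, -⟩ := hρ
  obtain ⟨hfin', -, -, -, -, hσ0, -⟩ := hσ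
  set F := (hfin T).toFinset with hF
  have hN : (num ρ T : ℝ) = (F.card : ℝ) := by
    rw [num, Set.ncard_eq_toFinset_card _ (hfin T)]
  have hsum : ∑ c ∈ F, len σ c / len ρ c ≤ K' * (F.card : ℝ) := by
    rcases Nat.eq_zero_or_pos F.card with h0 | hpos
    · rw [Finset.card_eq_zero.1 h0]
      simp
    · have h1 : avg ρ σ T = (∑ c ∈ F, len σ c / len ρ c) / (F.card : ℝ) := by
        rw [avg, hN, finsum_mem_eq_finite_toFinset_sum _ (hfin T)]
      rw [h1, div_le_iff₀ (by exact_mod_cast hpos)] at havg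
      exact havg
  set F1 := F.filter (fun c => len σ c ≤ K * T) with hF1
  set F2 := F.filter (fun c => ¬ len σ c ≤ K * T) with hF2
  have hcard : F1.card + F2.card = F.card := by
    rw [hF1, hF2]
    exact Finset.card_filter_add_card_filter_not _
  have h2 : (F2.card : ℝ) * K ≤ ∑ c ∈ F, len σ c / len ρ c := by
    calc (F2.card : ℝ) * K = ∑ c ∈ F2, K := by rw [Finset.sum_const, nsmul_eq_mul]
      _ ≤ ∑ c ∈ F2, len σ c / len ρ c := by
        refine Finset.sum_le_sum fun c hc => ?_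
        rw [hF2, Finset.mem_filter] at hc
        obtain ⟨hcF, hc2⟩ := hc
        rw [hF, Set.Finite.mem_toFinset] at hcF
        have hcT : len ρ c ≤ T := hcF
        have hc3 : K * T < len σ c := not_le.1 hc2
        have hpos : 0 < len ρ c := by
          rcases lt_or_eq_of_le (jg_len_nonneg ρ hs2 c) with h | h
          · exact h
          · exfalso
            have h3 : len σ c = 0 := (hσ0 _).2 ((hρ0 _).1 h.symm)
            have h4 : 0 < K * T := mul_pos hK hT
            linarith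
        rw [le_div_iff₀ hpos]
        calc K * len ρ c ≤ K * T := mul_le_mul_of_nonneg_left hcT hK.le
          _ ≤ _ := hc3.le
      _ ≤ ∑ c ∈ F, len σ c / len ρ c :=
        Finset.sum_le_sum_of_subset_of_nonneg (Finset.filter_subset _ _)
          fun c _ _ => jg_ratio_nonneg ρ σ hs2 c
  have h5 : (F1.card : ℝ) ≤ (num σ (K * T) : ℝ) := by
    have h6 : F1.card ≤ num σ (K * T) := by
      rw [num, ← Set.ncard_coe_finset F1]
      apply Set.ncard_le_ncard _ (hfin' (K * T))
      intro c hc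
      rw [hF1, Finset.mem_coe, Finset.mem_filter] at hc
      exact hc.2
    exact_mod_cast h6
  have h7 : (F1.card : ℝ) + F2.card = F.card := by exact_mod_cast hcard
  have h8 : (F2.card : ℝ) ≤ K' / K * F.card := by
    rw [div_mul_eq_mul_div, le_div_iff₀ hK]
    linarith
  rw [hN]
  linarith

end

theorem jg (hs2 : St_HS2) : St_JG := by
  intro Γ _ ρ σ U I hρ hσ hU hI
  obtain ⟨hUtop, hent⟩ := hU
  have hI0 : 0 ≤ I := ge_of_tendsto' hI fun T => jg_avg_nonneg ρ σ hs2 T
  have hσpos : 0 < ent σ := hσ.2.1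
  have key : ∀ K : ℝ, I < K → ∀ ε : ℝ, 0 < ε → ent ρ / K ≤ ent σ + ε := by
    intro K hK ε hε
    have hK0 : 0 < K := lt_of_le_of_lt hI0 hK
    set K' := (I + K) / 2 with hK'
    have hIK' : I < K' := by rw [hK']; linarith
    have hK'K : K' < K := by rw [hK']; linarith
    have hq : 0 < 1 - K' / K := by
      rw [sub_pos, div_lt_one hK0]
      exact hK'K
    have e1 : ∀ᶠ T in (U : Filter ℝ), avg ρ σ T < K' := hI.eventually_lt_const hIK'
    have e2 : ∀ᶠ T in (U : Filter ℝ), (0 : ℝ) < T := hUtop (eventually_gt_atTop 0)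
    have e3 : ∀ᶠ T in (U : Filter ℝ), (1 : ℝ) ≤ (num ρ T : ℝ) :=
      hUtop (hρ.2.2.2.1.eventually_ge_atTop 1)
    have hKT : Tendsto (fun T : ℝ => K * T) atTop atTop := tendsto_id.const_mul_atTop hK0
    have e4 : ∀ᶠ T in (U : Filter ℝ),
        Real.log (num σ (K * T)) / (K * T) ≤ ent σ + ε :=
      hUtop (hKT.eventually (hσ.2.2.2.2.1 ε hε))
    have l1 : Tendsto (fun T : ℝ => Real.log (1 - K' / K) / (K * T) +
        Real.log (num ρ T) / T / K) (U : Filter ℝ) (𝓝 (0 + ent ρ / K)) := by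
      refine Tendsto.add ?_ (hent.div_const K)
      exact (tendsto_const_nhds.div_atTop hKT).mono_left hUtop
    rw [zero_add] at l1
    refine le_of_tendsto l1 ?_
    filter_upwards [e1, e2, e3, e4] with T h1 h2 h3 h4
    refine le_trans ?_ h4
    have h5 := jg_count ρ σ hs2 hρ hσ K K' T h2 hK0 h1.le
    have h6 : 0 < (1 - K' / K) * (num ρ T : ℝ) := mul_pos hq (by linarith)
    have h7 := Real.log_le_log h6 h5
    rw [Real.log_mul hq.ne' (by linarith)] at h7
    have h8 : 0 < K * T := mul_pos hK0 h2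
    have h9 : Real.log (num ρ T) / T / K = Real.log (num ρ T) / (K * T) := by
      rw [div_div, mul_comm]
    rw [h9, ← add_div]
    exact div_le_div_of_nonneg_right h7 h8.le
  have key2 : ∀ K : ℝ, I < K → ent ρ ≤ K * ent σ := by
    intro K hK
    have hK0 : 0 < K := lt_of_le_of_lt hI0 hK
    have h1 : ent ρ / K ≤ ent σ := le_of_forall_pos_le_add fun ε hε => key K hK ε hε
    rw [div_le_iff₀ hK0] at h1
    linarith
  refine le_of_forall_pos_le_add fun η hη => ?_
  have h1 := key2 (I + η / ent σ) (by linarith [div_pos hη hσpos])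
  rw [add_mul, div_mul_cancel₀ _ hσpos.ne'] at h1
  exact h1

end Pool.Agent.Helper42.PM
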