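import Pool.Agent.Helper35.PQF.St3

/-!
# Project PQF, module DT (detour inequality)
-/

open Filter Topology Matrix Set MeasureTheory
open scoped ENNReal ComplexOrder

namespace Pool.Agent.Helper42.PM

open Pool.Agent.Helper35.PM

theorem dtzt_mem (t : ℝ) : zt t ∈ Metric.ball (0 : ℂ) 1 := by
  rw [mem_ball_zero_iff]
  unfold zt
  rw [Complex.norm_real, Real.norm_eq_abs]
  exact Real.abs_tanh_lt_one _

theorem dtpt_mem {x : ℝ} (hx : x < 0) (θ : ℝ) : pt x θ ∈ Metric.ball (0 : ℂ) 1 := by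
  rw [mem_ball_zero_iff]
  unfold pt
  rw [Complex.norm_exp]
  simpa using hx

theorem dt_fin {p s1 s2 I : ℝ} {d : ℝ≥0∞} (hp : 0 < p) (h1 : 0 ≤ s1) (h2 : 0 ≤ s2) (hI : 0 ≤ I)
    (h : d * ENNReal.ofReal p ≤ ENNReal.ofReal (p * (3 / 2 + s1)) + ENNReal.ofReal I +
      ENNReal.ofReal (p * (3 / 2 + s2))) :
    d ≤ ENNReal.ofReal (3 + (s1 + s2) + p⁻¹ * I) := by
  have hfin : ENNReal.ofReal p ≠ ⊤ := ENNReal.ofReal_ne_top
  have hne : ENNReal.ofReal p ≠ 0 := by
    rw [Ne, ENNReal.ofReal_eq_zero, not_le]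
    exact hp
  have e : ENNReal.ofReal (p * (3 / 2 + s1)) + ENNReal.ofReal I + ENNReal.ofReal (p * (3 / 2 + s2)) =
      ENNReal.ofReal (3 + (s1 + s2) + p⁻¹ * I) * ENNReal.ofReal p := by
    rw [← ENNReal.ofReal_add (by positivity) hI, ← ENNReal.ofReal_add (by positivity) (by positivity),
      ← ENNReal.ofReal_mul (by positivity)]
    congr 1
    field_simp
    ring
  rw [e] at h
  exact (ENNReal.mul_le_mul_iff_left hne hfin).1 h

theorem dt (f4 : St_F4) (sy : St_SY) (rm : St_RM) (jc : St_JC) (ry : St_RY) : St_DT := by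
  intro g hg U hU F hF1 hF2 L hL n y hy0 hya hyp
  have h0 : (0 : ℂ) ∈ Metric.ball (0 : ℂ) 1 := by simp
  have hzL := dtzt_mem L
  obtain ⟨hsym, htri⟩ := sy (SurfaceGroup g) U
  obtain ⟨a, ham, had, hai⟩ :=
    rm g hg U hU (F 0) (hF1 0 h0) (ry g hg U hU (F 0) (hF1 0 h0)) n y hy0 hya hyp
  obtain ⟨b, hbm, hbd, hbi⟩ :=
    rm g hg U hU (F (zt L)) (hF1 _ hzL) (ry g hg U hU (F (zt L)) (hF1 _ hzL)) n y hy0 hya hyp
  set c : ℝ → ℝ := fun θ => cost (fun z => F z (pt (-(y n)) θ)) L with hc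
  have hcc : Continuous c := jc g hg U hU F hF1 hF2 L (y n) hL (hyp n)
  have hc0 : ∀ θ, 0 ≤ c θ := fun θ => Real.sqrt_nonneg _
  set d := pressureDist U (F 0 0) (F (zt L) 0) with hd
  have hpi : 0 < 2 * Real.pi := by positivity
  -- pointwise inequality
  have hpt : ∀ θ, d ≤ a θ + ENNReal.ofReal (c θ) + b θ := by
    intro θ
    have hw : pt (-(y n)) θ ∈ Metric.ball (0 : ℂ) 1 := dtpt_mem (by linarith [hyp n]) θ
    have h1 := had θ
    have h2 := hbd θ
    have h3 : pressureDist U (F 0 (pt (-(y n)) θ)) (F (zt L) (pt (-(y n)) θ)) ≤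
        ENNReal.ofReal (c θ) := f4 g hg U hU (fun z => F z (pt (-(y n)) θ)) (hF2 _ hw) L hL
    have h4 : pressureDist U (F (zt L) (pt (-(y n)) θ)) (F (zt L) 0) ≤ b θ := by
      rw [hsym]
      exact h2
    calc d ≤ pressureDist U (F 0 0) (F (zt L) (pt (-(y n)) θ)) +
            pressureDist U (F (zt L) (pt (-(y n)) θ)) (F (zt L) 0) := htri _ _ _
      _ ≤ (pressureDist U (F 0 0) (F 0 (pt (-(y n)) θ)) +
            pressureDist U (F 0 (pt (-(y n)) θ)) (F (zt L) (pt (-(y n)) θ))) +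
            pressureDist U (F (zt L) (pt (-(y n)) θ)) (F (zt L) 0) := by
          gcongr
          exact htri _ _ _
      _ ≤ a θ + ENNReal.ofReal (c θ) + b θ := add_le_add (add_le_add h1 h3) h4
  -- the integral of the cost
  have hci : ∫⁻ θ in Ioo 0 (2 * Real.pi), ENNReal.ofReal (c θ) =
      ENNReal.ofReal (∫ θ in (0 : ℝ)..(2 * Real.pi), c θ) := by
    rw [intervalIntegral.integral_of_le hpi.le, integral_Ioc_eq_integral_Ioo]
    refine (ofReal_integral_eq_lintegral_ofReal ?_ ?_).symm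
    · exact (hcc.integrableOn_Icc (a := 0) (b := 2 * Real.pi)).mono_set Ioo_subset_Icc_self
    · exact Filter.Eventually.of_forall hc0
  have hvol : volume (Ioo (0 : ℝ) (2 * Real.pi)) = ENNReal.ofReal (2 * Real.pi) := by
    rw [Real.volume_Ioo, sub_zero]
  set S1 := ∑ k ∈ Finset.range n, Real.sqrt (mdef (F 0) (y k)) *
    Real.sqrt (Real.log (y k / y (k + 1))) with hS1
  set S2 := ∑ k ∈ Finset.range n, Real.sqrt (mdef (F (zt L)) (y k)) *
    Real.sqrt (Real.log (y k / y (k + 1))) with hS2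
  have hS1n : 0 ≤ S1 := Finset.sum_nonneg fun _ _ => mul_nonneg (Real.sqrt_nonneg _) (Real.sqrt_nonneg _)
  have hS2n : 0 ≤ S2 := Finset.sum_nonneg fun _ _ => mul_nonneg (Real.sqrt_nonneg _) (Real.sqrt_nonneg _)
  have hIn : 0 ≤ ∫ θ in (0 : ℝ)..(2 * Real.pi), c θ :=
    intervalIntegral.integral_nonneg hpi.le fun θ _ => hc0 θ
  have hsum : (∑ k ∈ Finset.range n, (Real.sqrt (mdef (F 0) (y k)) +
      Real.sqrt (mdef (F (zt L)) (y k))) * Real.sqrt (Real.log (y k / y (k + 1)))) = S1 + S2 := by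
    rw [hS1, hS2, ← Finset.sum_add_distrib]
    exact Finset.sum_congr rfl fun k _ => by ring
  have hint : d * ENNReal.ofReal (2 * Real.pi) ≤
      ENNReal.ofReal (2 * Real.pi * (3 / 2 + S1)) +
        ENNReal.ofReal (∫ θ in (0 : ℝ)..(2 * Real.pi), c θ) +
        ENNReal.ofReal (2 * Real.pi * (3 / 2 + S2)) := by
    calc d * ENNReal.ofReal (2 * Real.pi) = ∫⁻ θ in Ioo 0 (2 * Real.pi), d := by
          rw [setLIntegral_const, hvol]
      _ ≤ ∫⁻ θ in Ioo 0 (2 * Real.pi), (a θ + ENNReal.ofReal (c θ) + b θ) :=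
          lintegral_mono fun θ => hpt θ
      _ = (∫⁻ θ in Ioo 0 (2 * Real.pi), a θ) +
            (∫⁻ θ in Ioo 0 (2 * Real.pi), ENNReal.ofReal (c θ)) +
            ∫⁻ θ in Ioo 0 (2 * Real.pi), b θ := by
          rw [lintegral_add_right _ hbm, lintegral_add_left ham]
      _ ≤ _ := by
          rw [hci]
          exact add_le_add (add_le_add hai le_rfl) hbi
  rw [hsum]
  exact dt_fin hpi hS1n hS2n hIn hint

end Pool.Agent.Helper42.PM
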