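import Pool.Agent.Helper62.PM.St3

/-!
# Project PM, module SB: `A φ` is differentiable off the origin
-/

set_option autoImplicit false

open MeasureTheory Metric Set Filter Topology Polynomial
open scoped RealInnerProductSpace ContDiff

namespace Pool.Agent.Helper42.PM

open Pool.Agent.Helper62.PM
open Pool.Agent.Helper62.Mink

/-- Bounds for all words exist. -/
private theorem exBd (hD : StD) (hXA : StXA) {n : ℕ} (N : ℕ) (φ : E n → ℝ) (hφ : S1 φ) :
    ∃ B : ℝ, Bd N φ B := by
  have h1 : ∀ w : List (Fin n × Fin n), ∃ b : ℝ, ∀ x : E n, ‖x‖ = 1 → |Xw w φ x| ≤ b := by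
    intro w
    have hc : Continuous (Xw w φ) := ((hD n).2.2.2.2 _ ((hXA n).2.1 w φ hφ)).1
    have hk : IsCompact (sphere (0 : E n) 1) := isCompact_sphere _ _
    obtain ⟨b, hb⟩ := hk.exists_bound_of_continuousOn hc.continuousOn
    exact ⟨b, fun x hx => hb x (by simpa using hx)⟩
  choose b hb using h1
  obtain ⟨B, hB⟩ := ((List.finite_length_le (Fin n × Fin n) N).image b).bddAbove
  exact ⟨B, fun w hw x hx => (hb w x hx).trans (hB ⟨w, hw, rfl⟩)⟩

/-- Linearity for finite sums. -/
private theorem linSum (hD : StD) {n : ℕ} {e : E n} {μ : (E n → ℝ) → ℝ}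
    {A : (E n → ℝ) → E n → ℝ} {N : ℕ} {C : ℝ} (hA : Dop e μ A N C)
    {ι : Type} (s : Finset ι) (c : ι → ℝ) (f : ι → E n → ℝ) (hf : ∀ i, S1 (f i))
    (φ0 : E n → ℝ) (h0 : S1 φ0) :
    S1 (fun z => ∑ i ∈ s, c i * f i z) ∧
      ∀ x, A (fun z => ∑ i ∈ s, c i * f i z) x = ∑ i ∈ s, c i * A (f i) x := by
  classical
  induction s using Finset.induction_on with
  | empty =>
    have e0 : (fun z : E n => ∑ i ∈ (∅ : Finset ι), c i * f i z) = fun z => 0 * φ0 z := by
      funext z; simp
    refine ⟨by rw [e0]; exact ((hD n).2.1 0 φ0 h0).1, fun x => ?_⟩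
    rw [e0, hA.smul 0 φ0 h0]
    simp
  | insert a s ha ih =>
    have e1 : (fun z : E n => ∑ i ∈ insert a s, c i * f i z) =
        fun z => (fun z => c a * f a z) z + (fun z => ∑ i ∈ s, c i * f i z) z := by
      funext z
      rw [Finset.sum_insert ha]
    have h1 := ((hD n).2.1 (c a) (f a) (hf a)).1
    refine ⟨by rw [e1]; exact ((hD n).1 _ _ h1 ih.1).1, fun x => ?_⟩
    rw [e1, hA.add _ _ h1 ih.1, hA.smul _ _ (hf a), ih.2, Finset.sum_insert ha]

private theorem Xd_expand {n : ℕ} (a b : E n) (φ : E n → ℝ) (z : E n) :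
    Xd a b φ z = ∑ i : Fin n, ∑ j : Fin n, a i * b j *
      Xd (EuclideanSpace.single i (1 : ℝ)) (EuclideanSpace.single j (1 : ℝ)) φ z := by
  unfold Xd
  set D := fderiv ℝ φ z
  have h : ∀ i j : Fin n, a i * b j * D ((inner ℝ (EuclideanSpace.single i (1 : ℝ)) z : ℝ) •
      EuclideanSpace.single j (1 : ℝ) - (inner ℝ (EuclideanSpace.single j (1 : ℝ)) z : ℝ) •
      EuclideanSpace.single i (1 : ℝ)) = D ((a i * b j) • (z i • EuclideanSpace.single j (1 : ℝ) -
        z j • EuclideanSpace.single i (1 : ℝ))) := by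
    intro i j
    rw [map_smul, smul_eq_mul, EuclideanSpace.inner_single_left, EuclideanSpace.inner_single_left]
    simp
  simp_rw [h, ← map_sum]
  congr 1
  ext k
  have ha : (inner ℝ a z : ℝ) = ∑ i, a i * z i := by
    simp [PiLp.inner_apply, mul_comm]
  have hb : (inner ℝ b z : ℝ) = ∑ i, b i * z i := by
    simp [PiLp.inner_apply, mul_comm]
  simp only [PiLp.sub_apply, PiLp.smul_apply, smul_eq_mul, WithLp.ofLp_sum, Finset.sum_apply,
    EuclideanSpace.single_apply, mul_sub, mul_ite, mul_one, mul_zero, Finset.sum_sub_distrib,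
    Finset.sum_ite_eq, Finset.mem_univ, if_true, ha, hb]
  have e1 : (∑ i, a i * z i) * b k = ∑ i, a i * b k * z i := by
    rw [Finset.sum_mul]; exact Finset.sum_congr rfl fun i _ => by ring
  have e2 : (∑ i, b i * z i) * a k = ∑ i, a k * b i * z i := by
    rw [Finset.sum_mul]; exact Finset.sum_congr rfl fun i _ => by ring
  rw [e1, e2]
  congr 1
  rw [Finset.sum_comm]
  simp

private theorem Xd_anti {n : ℕ} (a b : E n) (φ : E n → ℝ) :
    Xd b a φ = fun z => (-1) * Xd a b φ z := by
  funext z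
  unfold Xd
  rw [← neg_sub, map_neg]
  ring

private theorem Xd_smul {n : ℕ} (c : ℝ) (a b : E n) (φ : E n → ℝ) :
    Xd (c • a) b φ = fun z => c * Xd a b φ z := by
  funext z
  unfold Xd
  rw [real_inner_smul_left, ← smul_eq_mul (a := c) (b := (fderiv ℝ φ z) _), ← map_smul]
  congr 1
  rw [smul_sub, smul_smul, smul_smul, smul_smul, mul_comm (inner ℝ b z : ℝ) c]

private theorem nsq {n : ℕ} (a w : E n) (c : ℝ) (ha : ‖a‖ = 1) (h : (inner ℝ a w : ℝ) = 0) :
    ‖c • a + w‖ ^ 2 = c ^ 2 + ‖w‖ ^ 2 := by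
  have h1 := norm_add_sq_real (c • a) w
  rw [real_inner_smul_left, h, norm_smul, ha] at h1
  rw [h1, mul_one, Real.norm_eq_abs, sq_abs]
  ring

theorem hSB : StA → StD → StXA → StSA → StSB := by
  intro hA hD hXA hSA n e μ A N C hn hC hDop φ hφ x hx
  obtain ⟨C', hC', hSA'⟩ := hSA n N
  obtain ⟨B0, hB0⟩ := exBd hD hXA (N + 2) φ hφ
  obtain ⟨B, hB, hB1⟩ : ∃ B : ℝ, 0 ≤ B ∧ Bd (N + 2) φ B :=
    ⟨max B0 0, le_max_right _ _, fun w hw z hz => (hB0 w hw z hz).trans (le_max_left _ _)⟩
  set F := A φ with hF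
  set L : E n →L[ℝ] ℝ := ∑ j : Fin n, ((∑ i : Fin n, x i * A (Xd (EuclideanSpace.single i (1 : ℝ))
        (EuclideanSpace.single j (1 : ℝ)) φ) x + x j * F x) / ‖x‖ ^ 2) •
          (EuclideanSpace.proj j : E n →L[ℝ] ℝ) with hL
  have hr : 0 < ‖x‖ := norm_pos_iff.2 hx
  set r := ‖x‖ with hrdef
  set T : Fin n → Fin n → ℝ := fun i j => A (Xd (EuclideanSpace.single i (1 : ℝ))
        (EuclideanSpace.single j (1 : ℝ)) φ) x with hT
  have hXd : ∀ a b : E n, S1 (Xd a b φ) := fun a b => (hXA n).1 a b φ hφ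
  have Lap : ∀ y : E n, L y = ∑ j : Fin n, ((∑ i : Fin n, x i * T i j + x j * F x) / r ^ 2) * y j := by
    intro y
    rw [hL]
    simp [ContinuousLinearMap.sum_apply, hT]
  have hanti : ∀ i j, T j i = -T i j := by
    intro i j
    simp only [hT]
    rw [Xd_anti, hDop.smul _ _ (hXd _ _)]
    ring
  have hxx : ∑ j : Fin n, x j * x j = r ^ 2 := by
    rw [hrdef, EuclideanSpace.norm_sq_eq]
    refine Finset.sum_congr rfl fun j _ => ?_
    rw [Real.norm_eq_abs, sq_abs]
    ring
  -- `L x = F x`
  have Lx : L x = F x := by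
    rw [Lap]
    have h1 : ∑ j : Fin n, ((∑ i : Fin n, x i * T i j + x j * F x) / r ^ 2) * x j =
        ((∑ j : Fin n, ∑ i : Fin n, x j * (x i * T i j)) + (∑ j : Fin n, x j * x j) * F x) / r ^ 2 := by
      rw [Finset.sum_mul, ← Finset.sum_add_distrib, Finset.sum_div]
      refine Finset.sum_congr rfl fun j _ => ?_
      rw [← Finset.mul_sum]
      ring
    have h2 : ∑ j : Fin n, ∑ i : Fin n, x j * (x i * T i j) = 0 := by
      have h3 : ∑ j : Fin n, ∑ i : Fin n, x j * (x i * T i j) =
          -∑ j : Fin n, ∑ i : Fin n, x j * (x i * T i j) := by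
        conv_lhs => rw [Finset.sum_comm]
        rw [← Finset.sum_neg_distrib]
        refine Finset.sum_congr rfl fun j _ => ?_
        rw [← Finset.sum_neg_distrib]
        refine Finset.sum_congr rfl fun i _ => ?_
        rw [hanti i j]
        ring
      linarith
    rw [h1, h2, hxx]
    field_simp
    ring
  obtain ⟨a, ha⟩ : ∃ a : E n, a = r⁻¹ • x := ⟨_, rfl⟩
  have hxa : x = r • a := by rw [ha, smul_smul, mul_inv_cancel₀ hr.ne', one_smul]
  have hna : ‖a‖ = 1 := by
    rw [ha, norm_smul, norm_inv, Real.norm_of_nonneg hr.le, ← hrdef, inv_mul_cancel₀ hr.ne']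
  have Fxa : F x = r * F a := by
    conv_lhs => rw [hxa]
    exact hDop.hom φ hφ r hr.le a
  have La : L a = F a := by
    have h1 : L x = r * L a := by
      conv_lhs => rw [hxa]
      rw [map_smul, smul_eq_mul]
    rw [Lx, Fxa] at h1
    exact (mul_left_cancel₀ hr.ne' h1).symm
  -- `L b`
  have Lb : ∀ b : E n, (inner ℝ a b : ℝ) = 0 → L b = A (Xd a b φ) a := by
    intro b hab
    have hxb : ∑ j : Fin n, x j * b j = 0 := by
      have h1 : (inner ℝ x b : ℝ) = 0 := by
        conv_lhs => rw [hxa]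
        rw [real_inner_smul_left, hab, mul_zero]
      rw [← h1]
      simp [PiLp.inner_apply, mul_comm]
    have h2 : A (Xd x b φ) x = ∑ i : Fin n, ∑ j : Fin n, x i * b j * T i j := by
      have h3 : Xd x b φ = fun z => ∑ q ∈ (Finset.univ : Finset (Fin n × Fin n)),
          (x q.1 * b q.2) * Xd (EuclideanSpace.single q.1 (1 : ℝ))
            (EuclideanSpace.single q.2 (1 : ℝ)) φ z := by
        funext z
        rw [Xd_expand, Fintype.sum_prod_type]
      have h4 := (linSum hD hDop (Finset.univ : Finset (Fin n × Fin n))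
        (fun q => x q.1 * b q.2) (fun q => Xd (EuclideanSpace.single q.1 (1 : ℝ))
            (EuclideanSpace.single q.2 (1 : ℝ)) φ) (fun q => hXd _ _) φ hφ).2 x
      rw [h3, h4, Fintype.sum_prod_type]
    have h5 : A (Xd x b φ) x = r ^ 2 * A (Xd a b φ) a := by
      have h6 : Xd x b φ = fun z => r * Xd a b φ z := by
        conv_lhs => rw [hxa]
        exact Xd_smul r a b φ
      rw [h6, hDop.smul r _ (hXd a b)]
      have h7 : A (Xd a b φ) x = r * A (Xd a b φ) a := by
        conv_lhs => rw [hxa]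
        exact hDop.hom _ (hXd a b) r hr.le a
      rw [h7]
      ring
    have h8 : L b = A (Xd x b φ) x / r ^ 2 := by
      rw [Lap, h2]
      have h9 : ∑ j : Fin n, ((∑ i : Fin n, x i * T i j + x j * F x) / r ^ 2) * b j =
          ((∑ j : Fin n, ∑ i : Fin n, x i * b j * T i j) +
            (∑ j : Fin n, x j * b j) * F x) / r ^ 2 := by
        rw [Finset.sum_mul, ← Finset.sum_add_distrib, Finset.sum_div]
        refine Finset.sum_congr rfl fun j _ => ?_
        have h10 : ∑ i : Fin n, x i * b j * T i j = b j * ∑ i : Fin n, x i * T i j := by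
          rw [Finset.mul_sum]
          exact Finset.sum_congr rfl fun i _ => by ring
        rw [h10]
        ring
      rw [h9, hxb, Finset.sum_comm]
      ring
    rw [h8, h5]
    field_simp
  -- the estimate along rotations
  have key : ∀ (b : E n) (t : ℝ), ON (a, b) →
      |F (Real.cos t • a + Real.sin t • b) - F a - t * L b| ≤ C * (C' * t ^ 2 * B) := by
    intro b t hab
    obtain ⟨θ, hθ, hθr⟩ := (hA n a b hab).1 t
    have h1 : F (Real.cos t • a + Real.sin t • b) = A (fun z => φ (rp a b t z)) a := by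
      have h2 : (fun z => φ (rp a b t z)) = fun z => φ (θ z) := by
        funext z; rw [hθr]
      rw [h2, hDop.rot θ hθ φ hφ a, hθr, (hA n a b hab).2.2.2 t]
    have hs1 : S1 (fun z => φ (rp a b t z)) := by
      have h2 : (fun z => φ (rp a b t z)) = fun z => φ (θ z) := by
        funext z; rw [hθr]
      rw [h2]
      exact ((hD n).2.2.1 θ φ hφ).1
    have hs2 : S1 (fun z => (-1) * φ z) := ((hD n).2.1 (-1) φ hφ).1
    have hs3 : S1 (fun z => φ (rp a b t z) + (-1) * φ z) := ((hD n).1 _ _ hs1 hs2).1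
    have hs4 : S1 (fun z => (-t) * Xd a b φ z) := ((hD n).2.1 (-t) _ (hXd a b)).1
    have hs5 : S1 (fun z => (φ (rp a b t z) + (-1) * φ z) + (-t) * Xd a b φ z) :=
      ((hD n).1 _ _ hs3 hs4).1
    have h3 := hDop.bound _ hs5 _ (hSA' a b φ t B hab hφ hB1) a
    have h4 : A (fun z => (φ (rp a b t z) + (-1) * φ z) + (-t) * Xd a b φ z) a =
        F (Real.cos t • a + Real.sin t • b) - F a - t * L b := by
      rw [hDop.add _ _ hs3 hs4, hDop.add _ _ hs1 hs2, hDop.smul _ _ hφ, hDop.smul _ _ (hXd a b), h1,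
        Lb b hab.2.2]
      ring
    rw [h4, hna, mul_one] at h3
    exact h3
  -- the final estimate
  set K : ℝ := C * (C' * B) + |F a| + ‖L‖ with hK
  have hK0 : 0 ≤ K := by positivity
  have main : ∀ y : E n, ‖y - x‖ < r / 8 → |F y - L y| ≤ 32 * K / r * ‖y - x‖ ^ 2 := by
    intro y hy
    set α : ℝ := inner ℝ a y with hα
    have hax : (inner ℝ a x : ℝ) = r := by
      rw [hxa, real_inner_smul_right, real_inner_self_eq_norm_sq, hna]
      ring
    have hα1 : |α - r| ≤ ‖y - x‖ := by
      have h1 : α - r = inner ℝ a (y - x) := by rw [inner_sub_right, hax]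
      rw [h1]
      have h2 := abs_real_inner_le_norm a (y - x)
      rwa [hna, one_mul] at h2
    have hαpos : 0 < α := by
      have := abs_le.1 hα1
      linarith [this.1]
    obtain ⟨w, hw⟩ : ∃ w : E n, w = y - α • a := ⟨_, rfl⟩
    have haw : (inner ℝ a w : ℝ) = 0 := by
      rw [hw, inner_sub_right, real_inner_smul_right, real_inner_self_eq_norm_sq, hna, ← hα]
      ring
    have hyw : y = α • a + w := by rw [hw]; abel
    set β : ℝ := ‖w‖ with hβ
    have hyx : ‖y - x‖ ^ 2 = (α - r) ^ 2 + β ^ 2 := by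
      have h1 : y - x = (α - r) • a + w := by
        rw [sub_smul, ← hxa, hw]; abel
      rw [h1]
      exact nsq a w (α - r) hna haw
    have hβle : β ≤ ‖y - x‖ := by
      apply le_of_sq_le_sq _ (norm_nonneg _)
      rw [hyx]
      nlinarith [sq_nonneg (α - r)]
    by_cases hβ0 : β = 0
    · have hw0 : w = 0 := norm_eq_zero.1 hβ0
      rw [hyw, hw0, add_zero, map_smul, smul_eq_mul, La]
      have h1 : F (α • a) = α * F a := hDop.hom φ hφ α hαpos.le a
      rw [h1, sub_self, abs_zero]
      positivity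
    · have hβpos : 0 < β := lt_of_le_of_ne (norm_nonneg _) (Ne.symm hβ0)
      obtain ⟨b, hb⟩ : ∃ b : E n, b = β⁻¹ • w := ⟨_, rfl⟩
      have hwb : w = β • b := by rw [hb, smul_smul, mul_inv_cancel₀ hβ0, one_smul]
      have hnb : ‖b‖ = 1 := by
        rw [hb, norm_smul, norm_inv, Real.norm_of_nonneg hβpos.le, ← hβ, inv_mul_cancel₀ hβ0]
      have hab : ON (a, b) := by
        refine ⟨hna, hnb, ?_⟩
        show (inner ℝ a b : ℝ) = 0
        rw [hb, real_inner_smul_right, haw, mul_zero]
      set ρ : ℝ := ‖y‖ with hρ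
      have hρ2 : ρ ^ 2 = α ^ 2 + β ^ 2 := by
        rw [hρ]
        conv_lhs => rw [hyw]
        exact nsq a w α hna haw
      have hρlo : r / 2 ≤ ρ := by
        have h1 : r ≤ ρ + ‖y - x‖ := by
          have h2 := norm_sub_le y (y - x)
          rw [sub_sub_cancel] at h2
          exact h2
        linarith
      have hρhi : ρ ≤ 2 * r := by
        have h1 : ρ ≤ ‖y - x‖ + r := by
          have h2 := norm_add_le (y - x) x
          rw [sub_add_cancel] at h2
          exact h2
        linarith
      have hρpos : 0 < ρ := by linarith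
      set s : ℝ := β / ρ with hs
      have hs0 : 0 < s := div_pos hβpos hρpos
      have hs1 : s ≤ 2 * ‖y - x‖ / r := by
        rw [hs, div_le_div_iff₀ hρpos hr]
        nlinarith [norm_nonneg (y - x)]
      have hs2 : s ≤ 1 / 4 := by
        have h1 : 2 * ‖y - x‖ / r ≤ 1 / 4 := by
          rw [div_le_iff₀ hr]
          linarith
        linarith
      set t : ℝ := Real.arcsin s with ht
      have hsin : Real.sin t = s := Real.sin_arcsin (by linarith) (by linarith)
      have hcos : Real.cos t = α / ρ := by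
        rw [ht, Real.cos_arcsin]
        have h1 : 1 - s ^ 2 = (α / ρ) ^ 2 := by
          rw [hs]
          field_simp
          linarith
        rw [h1, Real.sqrt_sq (by positivity)]
      have ht0 : 0 < t := Real.arcsin_pos.2 hs0
      have htle : t ≤ 2 * s := by
        have h1 := Real.mul_le_sin ht0.le (Real.arcsin_le_pi_div_two s)
        rw [hsin] at h1
        have h2 : t = Real.pi / 2 * (2 / Real.pi * t) := by
          have := Real.pi_pos
          field_simp
        have h3 : Real.pi / 2 ≤ 2 := by linarith [Real.pi_le_four]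
        calc t = Real.pi / 2 * (2 / Real.pi * t) := h2
          _ ≤ Real.pi / 2 * s := mul_le_mul_of_nonneg_left h1 (by positivity)
          _ ≤ 2 * s := mul_le_mul_of_nonneg_right h3 hs0.le
      have ht1 : t ≤ 1 := by linarith
      have ht2 : t ≤ 4 * ‖y - x‖ / r := by
        have : 2 * (2 * ‖y - x‖ / r) = 4 * ‖y - x‖ / r := by ring
        linarith
      have ht3 : t ^ 2 ≤ 16 * ‖y - x‖ ^ 2 / r ^ 2 := by
        have h1 := pow_le_pow_left₀ ht0.le ht2 2
        have h2 : (4 * ‖y - x‖ / r) ^ 2 = 16 * ‖y - x‖ ^ 2 / r ^ 2 := by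
          rw [div_pow, mul_pow]; norm_num
        rwa [h2] at h1
      have hyρ : y = ρ • (Real.cos t • a + Real.sin t • b) := by
        rw [hcos, hsin, smul_add, smul_smul, smul_smul, mul_div_cancel₀ _ hρpos.ne', hs,
          mul_div_cancel₀ _ hρpos.ne', ← hwb]
        exact hyw
      have hFy : F y = ρ * F (Real.cos t • a + Real.sin t • b) := by
        conv_lhs => rw [hyρ]
        exact hDop.hom φ hφ ρ hρpos.le _
      have hLy : L y = ρ * (Real.cos t * F a + Real.sin t * L b) := by
        conv_lhs => rw [hyρ]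
        rw [map_smul, map_add, map_smul, map_smul, La]
        simp only [smul_eq_mul]
      have hsub : F y - L y = ρ * ((F (Real.cos t • a + Real.sin t • b) - F a - t * L b) +
          (1 - Real.cos t) * F a + (t - Real.sin t) * L b) := by
        rw [hFy, hLy]
        ring
      have k1 := key b t hab
      have k2 : |(1 - Real.cos t) * F a| ≤ t ^ 2 * |F a| := by
        rw [abs_mul]
        refine mul_le_mul_of_nonneg_right ?_ (abs_nonneg _)
        rw [abs_of_nonneg (by linarith [Real.cos_le_one t])]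
        have := Real.one_sub_sq_div_two_le_cos (x := t)
        nlinarith [sq_nonneg t]
      have k3 : |(t - Real.sin t) * L b| ≤ t ^ 2 * ‖L‖ := by
        rw [abs_mul]
        have h1 : |L b| ≤ ‖L‖ := by
          have h2 := L.le_opNorm b
          rwa [hnb, mul_one, Real.norm_eq_abs] at h2
        have h3 : |t - Real.sin t| ≤ t ^ 2 := by
          rw [abs_of_nonneg (by linarith [Real.sin_le ht0.le])]
          have h4 := Real.sin_gt_sub_cube ht0
          nlinarith [sq_nonneg t, pow_pos ht0 3]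
        exact mul_le_mul h3 h1 (abs_nonneg _) (sq_nonneg _)
      have k4 : |F y - L y| ≤ ρ * (K * t ^ 2) := by
        rw [hsub, abs_mul, abs_of_pos hρpos]
        refine mul_le_mul_of_nonneg_left ?_ hρpos.le
        have h5 := abs_add_three (F (Real.cos t • a + Real.sin t • b) - F a - t * L b)
          ((1 - Real.cos t) * F a) ((t - Real.sin t) * L b)
        have h6 : K * t ^ 2 = C * (C' * t ^ 2 * B) + t ^ 2 * |F a| + t ^ 2 * ‖L‖ := by
          rw [hK]; ring
        linarith
      calc |F y - L y| ≤ ρ * (K * t ^ 2) := k4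
        _ ≤ (2 * r) * (K * (16 * ‖y - x‖ ^ 2 / r ^ 2)) := by
            refine mul_le_mul hρhi (mul_le_mul_of_nonneg_left ht3 hK0) (by positivity)
              (by positivity)
        _ = 32 * K / r * ‖y - x‖ ^ 2 := by
            field_simp
            ring
  have hO : (fun y => F y - L y) =O[𝓝 x] fun y => ‖y - x‖ ^ 2 := by
    refine Asymptotics.IsBigO.of_bound (32 * K / r) ?_
    have hev : ∀ᶠ y in 𝓝 x, ‖y - x‖ < r / 8 := by
      have h1 : Metric.ball x (r / 8) ∈ 𝓝 x := Metric.ball_mem_nhds x (by positivity)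
      filter_upwards [h1] with y hy
      rwa [Metric.mem_ball, dist_eq_norm] at hy
    filter_upwards [hev] with y hy
    rw [Real.norm_eq_abs, Real.norm_of_nonneg (by positivity)]
    exact main y hy
  have h0 := hO.hasFDerivAt (𝕜 := ℝ) (by norm_num : 1 < 2)
  have h1 := h0.add L.hasFDerivAt
  rw [zero_add] at h1
  have h2 : (fun y => F y - L y) + (fun y => L y) = F := by
    funext y
    simp
  have h3 : HasFDerivAt (fun y => (F y - L y) + L y) L x := h1
  have h4 : (fun y => (F y - L y) + L y) = F := by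
    funext y
    ring
  rw [h4] at h3
  exact h3

end Pool.Agent.Helper42.PM
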